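import Pool.Agent.Lib.helper22.ParF
/-! Reduction of matroid matching in hypergraphic matroids to linear matroid parity. -/
namespace Pool.Agent.H.MP_0c5eb8_lc
open Pool.Agent.Lib.Par Pool.Agent.Lib.CX Finset Module

section
variable {ε : Type} [DecidableEq ε] (E : ε → Finset ℕ)

theorem trim (r : ε → ℕ) (F : Finset ε) : (∀ X ⊆ F, X.Nonempty → X.card + 1 ≤ (X.biUnion E).card) → Set.InjOn r F →
    ∃ t : ε → ℕ, (∀ e ∈ F, t e ∈ E e) ∧ ∀ f : ε → ℚ,
      (∀ d ∈ F, ∑ e ∈ F, f e * ((if r d = r e then 1 else 0) - if r d = t e then 1 else 0) = 0) → ∀ e ∈ F, f e = 0 := by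
  induction F using Finset.strongInduction with
  | H F ih =>
    intro h hr
    rcases F.eq_empty_or_nonempty with rfl | hF
    · exact ⟨r, by simp, by simp⟩
    obtain ⟨w, h1, h2⟩ := exists_mem_notMem_of_card_lt_card (s := F.image r)
      (card_image_le.trans_lt (h F subset_rfl hF))
    obtain ⟨d, hd, h1⟩ := mem_biUnion.1 h1
    have h2 : ∀ e ∈ F, r e ≠ w := fun e he k => h2 (mem_image.2 ⟨e, he, k⟩)
    obtain ⟨t, h3, h4⟩ := ih (F.erase d) (erase_ssubset hd) (fun X hX => h X (hX.trans (erase_subset _ _)))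
      (hr.mono (coe_subset.2 (erase_subset _ _)))
    refine ⟨Function.update t d w, fun e he => ?_, fun f hf => ?_⟩
    · by_cases k : e = d
      · simpa [k]
      · simpa [k] using h3 e (mem_erase.2 ⟨k, he⟩)
    simp only [← add_sum_erase F _ hd, Function.update_self] at hf
    have := h4 f fun c hc => by
      have k := hf c (mem_of_mem_erase hc)
      rw [if_neg (h2 c (mem_of_mem_erase hc)), if_neg fun x => ne_of_mem_erase hc (hr (mem_of_mem_erase hc) hd x)] at k
      rw [sub_zero, mul_zero, zero_add] at k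
      exact (sum_congr rfl fun e he => by rw [Function.update_of_ne (ne_of_mem_erase he)]).trans k
    intro e he
    by_cases k : e = d
    · have z := hf d hd
      rw [sum_eq_zero fun e he => by rw [this e he, zero_mul]] at z
      simpa [k, h2 d hd] using z
    · exact this e (mem_erase.2 ⟨k, he⟩)

theorem lorea (F : Finset ε) (h : ∀ X ⊆ F, X.Nonempty → X.card + 1 ≤ (X.biUnion E).card) :
    ∃ r t : ε → ℕ, (∀ e ∈ F, r e ∈ E e ∧ t e ∈ E e) ∧ ∀ f : ε → ℚ,
      (∀ x, ∑ e ∈ F, f e * ((if x = r e then 1 else 0) - if x = t e then 1 else 0) = 0) → ∀ e ∈ F, f e = 0 := by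
  obtain ⟨r, h1, h2⟩ := (all_card_le_biUnion_card_iff_exists_injective fun e : F => E e).1 fun X => by
    rcases X.eq_empty_or_nonempty with rfl | hX
    · simp
    have := h (X.map (Function.Embedding.subtype _)) (fun e he => property_of_mem_map_subtype X he) hX.map
    rw [card_map, map_eq_image, image_biUnion] at this
    exact Nat.le_of_succ_le this
  obtain ⟨t, h3, h4⟩ := trim E (fun e => if k : e ∈ F then r ⟨e, k⟩ else 0) F h fun e he d hd k => by
    simp only [mem_coe.1 he, mem_coe.1 hd, dite_true] at k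
    exact congrArg Subtype.val (h1 k)
  exact ⟨_, t, fun e he => ⟨by simpa [he] using h2 ⟨e, he⟩, h3 e he⟩, fun f hf => h4 f fun d _ => hf _⟩

theorem conv (X : Finset ε) (hX : X.Nonempty) (r t : ε → ℕ) (h : ∀ e ∈ X, r e ∈ E e ∧ t e ∈ E e) (k : ∀ f : ε → ℚ,
      (∀ x, ∑ e ∈ X, f e * ((if x = r e then 1 else 0) - if x = t e then 1 else 0) = 0) → ∀ e ∈ X, f e = 0) :
    X.card + 1 ≤ (X.biUnion E).card := by
  classical
  obtain ⟨d, hd⟩ := hX
  set U := X.biUnion E
  have hU : ∀ e ∈ X, ∀ x ∈ E e, x ∈ U := fun e he x hx => mem_biUnion.2 ⟨e, he, hx⟩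
  let v : ℕ → ℕ → ℚ := fun y x => (if x = y then 1 else 0) - if x = r d then 1 else 0
  let W := Submodule.span ℚ (((U.erase (r d)).image v : Finset _) : Set (ℕ → ℚ))
  have hv : ∀ y ∈ U, v y ∈ W := fun y hy => by
    by_cases e : y = r d
    · rw [show v y = 0 from funext fun x => by simp [v, e]]; exact W.zero_mem
    · exact Submodule.subset_span (mem_coe.2 (mem_image_of_mem _ (mem_erase.2 ⟨e, hy⟩)))
  have : LinearIndependent ℚ fun e : X => (⟨v (r e) - v (t e),
      W.sub_mem (hv _ (hU e e.2 _ (h e e.2).1)) (hv _ (hU e e.2 _ (h e e.2).2))⟩ : W) := by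
    rw [Fintype.linearIndependent_iff]
    intro g hg e
    simpa using k (fun e => if x : e ∈ X then g ⟨e, x⟩ else 0) (fun x => by
      rw [← sum_coe_sort]
      simpa [v] using congrFun (congrArg Subtype.val hg) x) e e.2
  have h1 := this.fintype_card_le_finrank
  have h2 : finrank ℚ W ≤ _ := (finrank_span_finset_le_card _).trans card_image_le
  have h3 := card_erase_add_one (hU d hd _ (h d hd).1)
  rw [Fintype.card_coe] at h1
  omega
end

theorem mono {D ι : Type} [AddCommGroup D] [Module ℚ D] {a b : ι → D} {M N : Finset ι} (h : Mat a b M) (k : N ⊆ M) :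
    Mat a b N := fun f g e i hi => by
  classical
  simpa [hi] using h (fun i => if i ∈ N then f i else 0) (fun i => if i ∈ N then g i else 0) (by
    rw [← e, ← sum_subset k fun i _ hi => by simp [hi]]
    exact sum_congr rfl fun i hi => by simp [hi]) i (k hi)

theorem two {D ι : Type} [DecidableEq ι] [AddCommGroup D] [Module ℚ D] {a b : ι → D} {M : Finset ι} (h : Mat a b M) {i j} (hi : i ∈ M)
    (hj : j ∈ M) (x : ℚ) (e : x • a i + b i = b j) : i = j := by
  by_contra k
  simpa using (mono h (N := {i, j}) (by simp [insert_subset_iff, hi, hj]) (fun l => if l = i then x else 0)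
    (fun l => if l = i then 1 else -1) (by rw [sum_pair k]; simp [Ne.symm k, e]) i (by simp)).2

abbrev Co := Option Bool × ℕ
abbrev Hy := List (List ℕ × List ℕ)
def ed (H : Hy) (i : ℕ) (b : Bool) : List ℕ := if b then (H.getD i ([], [])).2 else (H.getD i ([], [])).1
def li (H : Hy) : List (Co × Co × Co) := ((List.range H.length).flatMap fun i =>
  ((some false, i), (some true, i), (some true, i)) :: [false, true].flatMap fun b => (ed H i b).flatMap fun u =>
    (ed H i b).map fun v => ((none, u), (none, v), (some b, i))).dedup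
def ga (l : Co × Co × Co) (c : Co) : ℤ := (if c = l.1 then 1 else 0) - if c = l.2.1 then 1 else 0
def gb (l : Co × Co × Co) (c : Co) : ℤ := if c = l.2.2 then 1 else 0
def co (H : Hy) : List Co := (li H).flatMap fun l => [l.1, l.2.1, l.2.2]
def alg (H : Hy) : ℕ := lmp ((li H).map fun l => ((co H).map (ga l), (co H).map (gb l))) - H.length

theorem pt_alg : PT alg := by
  have h1 : PT li := by unfold li ed; fun_prop
  have h2 : PT co := by unfold co; fun_prop
  unfold alg ga gb; fun_prop

theorem mem_li {H : Hy} {l} : l ∈ li H ↔ ∃ i < H.length, l = ((some false, i), (some true, i), (some true, i)) ∨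
    ∃ b, ∃ u ∈ ed H i b, ∃ v ∈ ed H i b, l = ((none, u), (none, v), (some b, i)) := by
  simp only [li, List.mem_dedup, List.mem_flatMap, List.mem_range, List.mem_cons, List.mem_map, eq_comm (a := l)]
  refine exists_congr fun i => and_congr_right fun _ => or_congr_right (exists_congr fun b => ?_)
  cases b <;> simp

def Ind (H : Hy) (S : Finset (Fin H.length)) : Prop := ∀ X : Finset (Fin H.length × Bool), X.Nonempty →
  (∀ e ∈ X, e.1 ∈ S) → X.card + 1 ≤ (X.biUnion fun e => (ed H e.1 e.2).toFinset).card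
def Ok (H : Hy) (M : Finset (Co × Co × Co)) : Prop :=
  (∀ l ∈ M, l ∈ li H) ∧ Mat (fun l c => (ga l c : ℚ)) (fun l c => (gb l c : ℚ)) M

theorem up {H : Hy} {S} (h : Ind H S) : ∃ M, Ok H M ∧ M.card = H.length + S.card := by
  obtain ⟨r, t, h1, h2⟩ := lorea (fun e : Fin H.length × Bool => (ed H e.1 e.2).toFinset) (S ×ˢ univ)
    fun X k hX => h X hX fun e he => (mem_product.1 (k he)).1
  let φ : (Fin H.length × Bool) ⊕ Fin H.length ↪ Co × Co × Co :=
    ⟨Sum.elim (fun e => ((none, r e), (none, t e), (some e.2, e.1))) fun i => ((some false, i), (some true, i), (some true, i)),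
      by rintro (⟨i, b⟩ | i) (⟨j, c⟩ | j) <;> simp +contextual [Fin.ext_iff]⟩
  refine ⟨((S ×ˢ univ).disjSum Sᶜ).map φ, ⟨forall_mem_map.2 ?_, (mat_map _ _).2 fun f g e => ?_⟩, ?_⟩
  · rintro (e | i) he
    · have := h1 e (inl_mem_disjSum.1 he)
      exact mem_li.2 ⟨e.1, e.1.2, .inr ⟨e.2, _, List.mem_toFinset.1 this.1, _, List.mem_toFinset.1 this.2, rfl⟩⟩
    · exact mem_li.2 ⟨i, i.2, .inl rfl⟩
  · rw [sum_disjSum] at e
    have e1 := h2 (fun e => f (.inl e)) fun x => by simpa [φ, ga, gb, Finset.sum_apply] using congrFun e (none, x)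
    rintro (⟨i, b⟩ | i) he
    · have he := inl_mem_disjSum.1 he
      have hi : i ∈ S := (mem_product.1 he).1
      refine ⟨e1 _ he, ?_⟩
      have := congrFun e (some b, i)
      rw [Pi.add_apply, Finset.sum_apply, Finset.sum_apply, sum_eq_single (i, b), sum_eq_zero] at this
      · simpa [φ, ga, gb] using this
      · intro j hj
        have : i.1 ≠ j.1 := fun k => mem_compl.1 hj (Fin.ext k ▸ hi)
        simp [φ, ga, gb, this]
      · rintro ⟨j, c⟩ - k
        have : ¬(b = c ∧ i.1 = j.1) := fun x => k (Prod.ext (Fin.ext x.2.symm) x.1.symm)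
        simp [φ, ga, gb, this]
      · exact fun k => (k he).elim
    have he := inr_mem_disjSum.1 he
    have z : ∀ b, f (.inr i) * ((if b = false then 1 else 0) - if b = true then 1 else 0) +
        g (.inr i) * (if b = true then 1 else 0) = 0 := fun b => by
      have := congrFun e (some b, i)
      rw [Pi.add_apply, Finset.sum_apply, Finset.sum_apply, sum_eq_zero, sum_eq_single i] at this
      · simpa [φ, ga, gb] using this
      · intro j _ k
        have : i.1 ≠ j.1 := fun x => k (Fin.ext x.symm)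
        simp [φ, ga, gb, this]
      · exact fun k => (k he).elim
      · rintro ⟨j, c⟩ hj
        have : i.1 ≠ j.1 := fun k => mem_compl.1 he (Fin.ext k ▸ (mem_product.1 hj).1)
        simp [φ, ga, gb, this]
    have z1 := z false
    have z2 := z true
    simp at z1 z2
    simpa [z1] using z2
  · have := card_add_card_compl S
    rw [Fintype.card_fin] at this
    simp
    omega

theorem down {H : Hy} {M} (h : Ok H M) : ∃ S, Ind H S ∧ M.card ≤ H.length + S.card := by
  classical
  let P : ℕ → Bool → Prop := fun i b => ∃ u v, ((none, u), (none, v), (some b, i)) ∈ M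
  let S : Finset (Fin H.length) := univ.filter fun i => P i false ∧ P i true
  refine ⟨S, fun X hX k => ?_, ?_⟩
  · have : ∀ e : Fin H.length × Bool, ∃ u v, e ∈ X → ((none, u), (none, v), (some e.2, e.1.1)) ∈ M := fun ⟨i, b⟩ => by
      by_cases x : (i, b) ∈ X
      · have := (mem_filter.1 (k _ x)).2
        cases b
        exacts [this.1.imp fun _ y => y.imp fun _ y _ => y, this.2.imp fun _ y => y.imp fun _ y _ => y]
      · exact ⟨0, 0, fun y => (x y).elim⟩
    choose r t hr using this
    refine conv _ X hX r t (fun e he => ?_) fun f hf e he => ?_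
    · obtain ⟨i, -, x | ⟨b, u, hu, v, hv, x⟩⟩ := mem_li.1 (h.1 _ (hr e he)) <;> simp at x
      simp [x, hu, hv]
    let φ : Fin H.length × Bool ↪ Co × Co × Co := ⟨fun e => ((none, r e), (none, t e), (some e.2, e.1)),
      by rintro ⟨i, b⟩ ⟨j, c⟩; simp +contextual [Fin.ext_iff]⟩
    refine ((mat_map φ X).1 (mono h.2 fun l hl => ?_) f 0 (funext fun c => ?_) e he).1
    · obtain ⟨e, he, rfl⟩ := mem_map.1 hl
      exact hr e he
    · rcases c with ⟨_ | b, x⟩
      · simpa [φ, ga, Finset.sum_apply] using hf x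
      · simp [φ, ga, Finset.sum_apply]
  have m : ∀ l ∈ M, l.2.2.2 < H.length ∧ ∃ b, l.2.2.1 = some b := fun l hl => by
    obtain ⟨i, hi, rfl | ⟨b, u, -, v, -, rfl⟩⟩ := mem_li.1 (h.1 l hl) <;> exact ⟨hi, _, rfl⟩
  have key : ∀ l ∈ M, ∀ l' ∈ M, l.2.2.1 = some false → l'.2.2.1 = some true → l.2.2.2 = l'.2.2.2 →
      l'.2.2.2 ∈ S.map Fin.valEmbedding := fun l hl l' hl' e1 e2 e3 => by
    obtain ⟨i, hi, rfl | ⟨b, u, -, v, -, rfl⟩⟩ := mem_li.1 (h.1 l hl)
    · simp at e1
    obtain rfl : b = false := Option.some.inj e1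
    obtain ⟨j, hj, rfl | ⟨b, u', -, v', -, rfl⟩⟩ := mem_li.1 (h.1 l' hl') <;> obtain rfl : i = j := e3
    · simpa using two h.2 hl' hl 1 (funext fun c => by simp [ga, gb])
    obtain rfl : b = true := Option.some.inj e2
    exact mem_map.2 ⟨⟨i, hi⟩, mem_filter.2 ⟨mem_univ _, ⟨u, v, hl⟩, u', v', hl'⟩, rfl⟩
  refine (card_le_card_of_injOn (t := (range H.length).disjSum (S.map Fin.valEmbedding))
    (fun l => if l.2.2.1 = some true ∧ l.2.2.2 ∈ S.map Fin.valEmbedding then .inr l.2.2.2 else .inl l.2.2.2)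
    (fun l hl => ?_) fun l hl l' hl' e => ?_).trans_eq (by simp)
  · dsimp only
    split_ifs with x
    exacts [mem_coe.2 (inr_mem_disjSum.2 x.2), mem_coe.2 (inl_mem_disjSum.2 (mem_range.2 (m l hl).1))]
  refine two h.2 hl hl' 0 (funext fun c => ?_)
  suffices l.2.2 = l'.2.2 by simp [gb, this]
  obtain ⟨-, b, hb⟩ := m l hl
  obtain ⟨-, b', hb'⟩ := m l' hl'
  have e1 : l.2.2.2 = l'.2.2.2 := by dsimp only at e; split_ifs at e <;> simpa using e
  refine Prod.ext ?_ e1
  dsimp only at e
  cases b <;> cases b'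
  · rw [hb, hb']
  · rw [if_neg (by simp [hb]), if_pos ⟨hb', key l hl l' hl' hb hb' e1⟩] at e; cases e
  · rw [if_pos ⟨hb, key l' hl' l hl hb' hb e1.symm⟩, if_neg (by simp [hb'])] at e; cases e
  · rw [hb, hb']

theorem alg_spec (H : Hy) : IsGreatest {k | ∃ S, Ind H S ∧ S.card = k} (alg H) := by
  obtain ⟨⟨M, h1, h2, h3⟩, h4⟩ := lmp_map (I := li H) (List.nodup_dedup _) (co H) ga gb fun l hl c hc => by
    simp only [co, List.mem_flatMap, not_exists, not_and] at hc
    have := hc l hl
    simp at this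
    simp [ga, gb, this]
  have u : ∀ S, Ind H S → S.card ≤ alg H := fun S h => by
    obtain ⟨N, k, e⟩ := up h
    have := h4 ⟨N, k.1, k.2, rfl⟩
    unfold alg; omega
  obtain ⟨S, k, e⟩ := down ⟨h1, h2⟩
  exact ⟨⟨S, k, (u S k).antisymm (by unfold alg; omega)⟩, fun _ ⟨S, k, e⟩ => e ▸ u S k⟩

end Pool.Agent.H.MP_0c5eb8_lc
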